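import Pool.Agent.Lib.MP_7592f8N.Defs

/-!
# MP_7592f8_co: `n = k + 1` (helper97): basic notions

A family of `k`-subsets of a `(k+1)`-set is given by the set `B` of the points missed by its members.
-/

set_option autoImplicit false

namespace CrossN
open Finset Cross7592

variable {n r : ℕ}

/-- The number of different points of a choice. -/
def Dn (b : Fin r → Fin n) : ℕ := #(univ.image b)

/-- `b` is a choice of points from the sets `B i`. -/
def Ch (B : Fin r → Finset (Fin n)) (b : Fin r → Fin n) : Prop := ∀ i, b i ∈ B i

/-- Non-empty sets all of whose choices have at least `a` and at most `c` different points. -/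
structure Bd (B : Fin r → Finset (Fin n)) (a c : ℕ) : Prop where
  ne : ∀ i, (B i).Nonempty
  lo : ∀ b, Ch B b → a ≤ Dn b
  hi : ∀ b, Ch B b → Dn b ≤ c

/-- The families of the complements of the points of `B i`. -/
def fam (B : Fin r → Finset (Fin n)) : Fin r → Finset (Finset (Fin n)) :=
  fun i => (B i).image fun x => univ.erase x

theorem Dn_le_left (b : Fin r → Fin n) : Dn b ≤ r := by
  have := card_image_le (s := (univ : Finset (Fin r))) (f := b)
  simpa [Dn] using this

theorem Dn_le_right (b : Fin r → Fin n) : Dn b ≤ n := by
  have := card_le_univ (univ.image b)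
  simpa [Dn] using this

theorem exists_ch {B : Fin r → Finset (Fin n)} (h : ∀ i, (B i).Nonempty) : ∃ b, Ch B b :=
  ⟨fun i => (h i).choose, fun i => (h i).choose_spec⟩

end CrossN
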