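import Pool.Agent.Lib.MP_7592f8.Defs

/-!
# MP_7592f8_co: `n = k + 1` (helper97): definitions
-/

namespace Cross7592
open Finset

/-- The largest total size of `r` non-empty families of `(n-1)`-subsets of an `n`-set all of whose
choices have an intersection of size between `n - b` and `n - a`. -/
def valN (n r a b : ℕ) : ℕ :=
  if min n r ≤ b then (r + 1 - a) * n
  else max (max (a * (r + 1 - a) + (n - a) * (b - a)) (b * (r + 1 - a)))
    (if a = 1 then 0 else (a - 1) * (r + 1 - a) + (n + 1 - a) * (b + 1 - a))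

/-- The pairs `(a, b)` with `1 ≤ a ≤ b ≤ k + 1`, `a ≤ r` such that `k + 1 - b, ..., k + 1 - a` are
all in `L`. -/
def runsN (k r : ℕ) (L : Finset ℕ) : Finset (ℕ × ℕ) :=
  (Icc 1 (min (k + 1) r) ×ˢ Icc 1 (k + 1)).filter fun p =>
    p.1 ≤ p.2 ∧ ∀ d ∈ Icc p.1 p.2, k + 1 - d ∈ L

end Cross7592
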