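import Pool.Agent.Lib.MP_7592f8N.Base

/-! # leaf T2: the numbers of different points of the choices form an interval -/

set_option autoImplicit false

namespace CrossN
open Finset Cross7592

private theorem T2_step {n r : ℕ} (b b' : Fin r → Fin n) (j : ℕ) :
    Dn (fun i : Fin r => if (i : ℕ) < j + 1 then b' i else b i) ≤
      Dn (fun i : Fin r => if (i : ℕ) < j then b' i else b i) + 1 := by
  unfold Dn
  by_cases hj : j < r
  · refine le_trans (card_le_card ?_) (card_insert_le (b' ⟨j, hj⟩)
      (univ.image fun i : Fin r => if (i : ℕ) < j then b' i else b i))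
    intro x hx
    rw [mem_image] at hx
    obtain ⟨i, -, hi⟩ := hx
    rw [mem_insert]
    by_cases h1 : (i : ℕ) = j
    · left
      have h2 : i = ⟨j, hj⟩ := Fin.ext h1
      rw [← hi, if_pos (by omega), h2]
    · right
      rw [mem_image]
      refine ⟨i, mem_univ _, ?_⟩
      rw [← hi]
      by_cases h3 : (i : ℕ) < j
      · rw [if_pos h3, if_pos (by omega)]
      · rw [if_neg h3, if_neg (by omega)]
  · have h : (fun i : Fin r => if (i : ℕ) < j + 1 then b' i else b i) =
        fun i : Fin r => if (i : ℕ) < j then b' i else b i := by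
      funext i
      have := i.isLt
      rw [if_pos (by omega), if_pos (by omega)]
    rw [h]
    exact Nat.le_succ _

theorem between {n r : ℕ} {B : Fin r → Finset (Fin n)} {b b' : Fin r → Fin n} (hb : Ch B b)
    (hb' : Ch B b') {d : ℕ} (h1 : Dn b ≤ d) (h2 : d ≤ Dn b') : ∃ b'', Ch B b'' ∧ Dn b'' = d := by
  have key : ∀ j : ℕ, d ≤ Dn (fun i : Fin r => if (i : ℕ) < j then b' i else b i) →
      ∃ b'', Ch B b'' ∧ Dn b'' = d := by
    intro j
    induction j with
    | zero =>
      intro h
      have h0 : (fun i : Fin r => if (i : ℕ) < 0 then b' i else b i) = b := by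
        funext i
        rw [if_neg (Nat.not_lt_zero _)]
      rw [h0] at h
      exact ⟨b, hb, le_antisymm h1 h⟩
    | succ j ih =>
      intro h
      by_cases hc : d ≤ Dn (fun i : Fin r => if (i : ℕ) < j then b' i else b i)
      · exact ih hc
      · have h3 := T2_step b b' j
        refine ⟨_, fun i => ?_, le_antisymm ?_ h⟩
        · split_ifs
          · exact hb' i
          · exact hb i
        · omega
  refine key r ?_
  have h0 : (fun i : Fin r => if (i : ℕ) < r then b' i else b i) = b' := by
    funext i
    rw [if_pos i.isLt]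
  rw [h0]
  exact h2

end CrossN
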