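import Pool.Agent.Lib.MP_7592f8N.Base

/-! # leaf U2: the deficiency form of Hall's theorem -/

set_option autoImplicit false

namespace CrossN
open Finset Cross7592

private theorem U2_exists_deficient {n r c : ℕ} {B : Fin r → Finset (Fin n)} (ne : ∀ i, (B i).Nonempty)
    (hi : ∀ b, Ch B b → Dn b ≤ c) (hcr : c < r) :
    ∃ S : Finset (Fin r), #(S.biUnion B) + (r - 1 - c) < #S := by
  classical
  by_contra hcon
  push Not at hcon
  have hall : ∀ S : Finset (Fin r), #S ≤ #(S.biUnion fun i => (B i).disjSum (univ : Finset (Fin (r - 1 - c)))) := by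
    intro S
    rcases S.eq_empty_or_nonempty with rfl | ⟨i0, hi0⟩
    · simp
    · refine (hcon S).trans ?_
      have h1 : #((S.biUnion B).disjSum (univ : Finset (Fin (r - 1 - c)))) = #(S.biUnion B) + (r - 1 - c) := by
        rw [card_disjSum, card_univ, Fintype.card_fin]
      rw [← h1]
      apply card_le_card
      intro x hx
      rw [mem_biUnion]
      rcases x with x | x
      · rw [inl_mem_disjSum, mem_biUnion] at hx
        obtain ⟨i, hiS, hxi⟩ := hx
        exact ⟨i, hiS, inl_mem_disjSum.2 hxi⟩
      · exact ⟨i0, hi0, inr_mem_disjSum.2 (mem_univ _)⟩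
  obtain ⟨f, hfi, hf⟩ := (Finset.all_card_le_biUnion_card_iff_exists_injective _).1 hall
  let b : Fin r → Fin n := fun i => Sum.elim (fun x => x) (fun _ => (ne i).choose) (f i)
  have hb : Ch B b := by
    intro i
    have h := hf i
    show Sum.elim (fun x => x) (fun _ => (ne i).choose) (f i) ∈ B i
    rcases hfi' : f i with x | x
    · rw [hfi', inl_mem_disjSum] at h
      exact h
    · exact (ne i).choose_spec
  have h2 := hi b hb
  let A : Finset (Fin r) := univ.filter fun i => (f i).isLeft
  let A' : Finset (Fin r) := univ.filter fun i => ¬ (f i).isLeft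
  have hAA : #A + #A' = r := by
    have := Finset.card_filter_add_card_filter_not (s := (univ : Finset (Fin r))) (fun i => (f i).isLeft)
    rw [card_univ, Fintype.card_fin] at this
    exact this
  have hA' : #A' ≤ r - 1 - c := by
    have h3 : #(A'.image f) = #A' := card_image_of_injective _ hfi
    have h4 : A'.image f ⊆ (univ : Finset (Fin (r - 1 - c))).image Sum.inr := by
      intro x hx
      rw [mem_image] at hx
      obtain ⟨i, hiA, rfl⟩ := hx
      have h5 : ¬ (f i).isLeft := (mem_filter.1 hiA).2
      rw [mem_image]
      rcases hfi' : f i with x | x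
      · rw [hfi'] at h5
        exact absurd rfl h5
      · exact ⟨x, mem_univ _, rfl⟩
    have h6 := card_le_card h4
    have h7 : #((univ : Finset (Fin (r - 1 - c))).image (Sum.inr : Fin (r - 1 - c) → Fin n ⊕ Fin (r - 1 - c))) ≤
        r - 1 - c := by
      refine card_image_le.trans ?_
      rw [card_univ, Fintype.card_fin]
    omega
  have hA : #A ≤ Dn b := by
    have h3 : #(A.image b) = #A := by
      apply card_image_of_injOn
      intro i hiA j hjA hij
      have h5 : (f i).isLeft := (mem_filter.1 (mem_coe.1 hiA)).2
      have h6 : (f j).isLeft := (mem_filter.1 (mem_coe.1 hjA)).2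
      apply hfi
      change Sum.elim (fun x => x) (fun _ => (ne i).choose) (f i) =
        Sum.elim (fun x => x) (fun _ => (ne j).choose) (f j) at hij
      rcases hfi' : f i with x | x
      · rcases hfj' : f j with y | y
        · rw [hfi', hfj'] at hij
          exact congrArg Sum.inl hij
        · rw [hfj'] at h6
          exact absurd h6 (by simp)
      · rw [hfi'] at h5
        exact absurd h5 (by simp)
    rw [← h3]
    exact card_le_card (image_subset_image (subset_univ _))
  omega

theorem exists_cover {n r c : ℕ} {B : Fin r → Finset (Fin n)} (ne : ∀ i, (B i).Nonempty)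
    (hi : ∀ b, Ch B b → Dn b ≤ c) (hcr : c < r) :
    ∃ (X : Finset (Fin n)) (R : Finset (Fin r)), #X + #R ≤ c ∧ ∀ i, i ∉ R → B i ⊆ X := by
  classical
  obtain ⟨S, hS⟩ := U2_exists_deficient ne hi hcr
  refine ⟨S.biUnion B, Sᶜ, ?_, ?_⟩
  · have h1 : #Sᶜ = r - #S := by
      rw [card_compl, Fintype.card_fin]
    have h2 : #S ≤ r := by
      have := card_le_univ S
      rwa [Fintype.card_fin] at this
    rw [h1]
    omega
  · intro i hiR
    rw [mem_compl, not_not] at hiR
    exact subset_biUnion_of_mem B hiR

end CrossN
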