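import Pool.Agent.Lib.MP_7592f8N.Base

/-! # leaf U3: the numerical inequality -/

set_option autoImplicit false

namespace CrossN
open Finset Cross7592

theorem num_le (n r a c x ρ : ℕ) (ha : 1 ≤ a) (hac : a ≤ c) (hcn : c < n) (hcr : c < r)
    (hx : 1 ≤ x) (hxρ : x + ρ ≤ c) :
    x * (r + 1 - a) + (n - x) * min ρ (c + 1 - a) ≤ valN n r a c := by
  unfold valN
  have h1 : ¬ min n r ≤ c := by
    rw [min_le_iff]
    omega
  rw [if_neg h1]
  obtain ⟨R, hR⟩ : ∃ R, R = r + 1 - a := ⟨_, rfl⟩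
  obtain ⟨p, hp⟩ : ∃ p, p = n - x := ⟨_, rfl⟩
  rcases lt_or_ge x a with hxa | hxa
  · have ha1 : ¬ a = 1 := by omega
    rw [if_neg ha1]
    refine le_trans ?_ (le_max_right _ _)
    obtain ⟨M, hM⟩ : ∃ M, M = c + 1 - a := ⟨_, rfl⟩
    obtain ⟨s, hs⟩ : ∃ s, s = a - 1 - x := ⟨_, rfl⟩
    obtain ⟨u, hu⟩ : ∃ u, u = R - M := ⟨_, rfl⟩
    have e1 : R = M + u := by omega
    have e2 : a - 1 = x + s := by omega
    have e3 : n - x = (n + 1 - a) + s := by omega
    have h2 : min ρ (c + 1 - a) ≤ M := by rw [hM]; exact min_le_right _ _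
    calc x * (r + 1 - a) + (n - x) * min ρ (c + 1 - a)
        ≤ x * R + (n - x) * M := by
          rw [← hR]
          exact Nat.add_le_add_left (Nat.mul_le_mul_left _ h2) _
      _ ≤ (a - 1) * (r + 1 - a) + (n + 1 - a) * (c + 1 - a) := by
          rw [← hR, ← hM, e2, e3, e1]
          nlinarith [Nat.zero_le (s * u)]
  · refine le_trans ?_ (le_max_left _ _)
    have h2 : min ρ (c + 1 - a) ≤ c - x := le_trans (min_le_left _ _) (by omega)
    have h3 : x * (r + 1 - a) + (n - x) * min ρ (c + 1 - a) ≤ x * R + p * (c - x) := by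
      rw [← hR, ← hp]
      exact Nat.add_le_add_left (Nat.mul_le_mul_left _ h2) _
    refine le_trans h3 ?_
    obtain ⟨s, hs⟩ : ∃ s, s = c - x := ⟨_, rfl⟩
    obtain ⟨u, hu⟩ : ∃ u, u = x - a := ⟨_, rfl⟩
    have e1 : c = x + s := by omega
    have e2 : x = a + u := by omega
    rw [← hR, ← hs]
    rcases le_or_gt n (x + R) with h4 | h4
    · refine le_trans ?_ (le_max_right _ _)
      have h5 : p ≤ R := by omega
      rw [e1]
      nlinarith [Nat.mul_le_mul_right s h5]
    · refine le_trans ?_ (le_max_left _ _)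
      have e3 : n - a = p + u := by omega
      have e4 : c - a = s + u := by omega
      have h5 : R ≤ p := by omega
      rw [e3, e4, e2]
      nlinarith [Nat.mul_le_mul_right u h5, Nat.zero_le (u * s), Nat.zero_le (u * u)]

end CrossN
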