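import Pool.Agent.Lib.MP_7592f8N.U1
import Pool.Agent.Lib.MP_7592f8N.U2
import Pool.Agent.Lib.MP_7592f8N.U3

/-! # leaf U4: the upper bound -/

set_option autoImplicit false

namespace CrossN
open Finset Cross7592

private theorem u4_double {n r : ℕ} (B : Fin r → Finset (Fin n)) :
    ∑ i, #(B i) = ∑ z : Fin n, #(univ.filter fun i : Fin r => z ∈ B i) := by
  have h1 : ∀ i, #(B i) = ∑ z : Fin n, if z ∈ B i then 1 else 0 := by
    intro i
    rw [← card_filter]
    congr 1
    ext z
    simp
  have h2 : ∀ z : Fin n, #(univ.filter fun i : Fin r => z ∈ B i) =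
      ∑ i : Fin r, if z ∈ B i then 1 else 0 := fun z => card_filter _ _
  simp only [h1, h2]
  exact sum_comm

theorem total_le {n r a c : ℕ} {B : Fin r → Finset (Fin n)} (h : Bd B a c) (ha : 1 ≤ a)
    (hr : 1 ≤ r) (hac : a ≤ c) : ∑ i, #(B i) ≤ valN n r a c := by
  rw [u4_double]
  have hd : ∀ z : Fin n, #(univ.filter fun i : Fin r => z ∈ B i) ≤ r + 1 - a := by
    intro z
    have := deg_le h.ne h.lo z
    omega
  by_cases hm : min n r ≤ c
  · rw [valN, if_pos hm]
    calc ∑ z : Fin n, #(univ.filter fun i : Fin r => z ∈ B i)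
        ≤ ∑ _z : Fin n, (r + 1 - a) := sum_le_sum fun z _ => hd z
      _ = (r + 1 - a) * n := by simp [mul_comm]
  · have hcn : c < n := by
      have := min_le_left n r
      omega
    have hcr : c < r := by
      have := min_le_right n r
      omega
    obtain ⟨X, R, h1, h2⟩ := exists_cover h.ne h.hi hcr
    have hx : 1 ≤ #X := by
      by_contra hx
      have hX : X = ∅ := by
        rw [← card_eq_zero]
        omega
      have hR : R = univ := by
        ext i
        simp only [mem_univ, iff_true]
        by_contra hi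
        have h3 := h2 i hi
        rw [hX, subset_empty] at h3
        exact (h.ne i).ne_empty h3
      rw [hR, card_univ, Fintype.card_fin] at h1
      omega
    refine le_trans ?_ (num_le n r a c #X #R ha hac hcn hcr hx h1)
    have hs : ∑ z : Fin n, #(univ.filter fun i : Fin r => z ∈ B i) =
        ∑ z ∈ X, #(univ.filter fun i : Fin r => z ∈ B i) +
          ∑ z ∈ Xᶜ, #(univ.filter fun i : Fin r => z ∈ B i) :=
      (sum_add_sum_compl X _).symm
    rw [hs]
    refine add_le_add ?_ ?_
    · calc ∑ z ∈ X, #(univ.filter fun i : Fin r => z ∈ B i)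
          ≤ ∑ _z ∈ X, (r + 1 - a) := sum_le_sum fun z _ => hd z
        _ = #X * (r + 1 - a) := by simp
    · calc ∑ z ∈ Xᶜ, #(univ.filter fun i : Fin r => z ∈ B i)
          ≤ ∑ _z ∈ Xᶜ, min #R (c + 1 - a) := by
            refine sum_le_sum fun z hz => ?_
            obtain ⟨h3, h4⟩ := deg_le_cover h.ne h.lo h2 (mem_compl.1 hz)
            exact le_min h3 (by omega)
        _ = (n - #X) * min #R (c + 1 - a) := by
            rw [sum_const, card_compl, Fintype.card_fin, smul_eq_mul]

end CrossN
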