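import Pool.Agent.Lib.MP_7592f8N.V0

/-! # leaf V2: all sets inside one set of `c` points -/

set_option autoImplicit false

namespace CrossN
open Finset Cross7592

private theorem v2_card (n lo hi : ℕ) (h : hi ≤ n) :
    #(univ.filter fun x : Fin n => lo ≤ x.1 ∧ x.1 < hi) = hi - lo := by
  rw [← card_map Fin.valEmbedding, ← Nat.card_Ico lo hi]
  congr 1
  ext x
  simp only [mem_map, mem_filter, mem_univ, true_and, Fin.valEmbedding_apply, mem_Ico]
  constructor
  · rintro ⟨y, hy, rfl⟩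
    exact hy
  · intro hx
    exact ⟨⟨x, by omega⟩, hx, rfl⟩

private theorem v2_one (a c : ℕ) (m : ℕ) (hm : m ≤ a) :
    ∑ i ∈ range m, ((if i + 1 < a + 1 then i + 1 else c) - (if i < a + 1 then i else 0)) = m := by
  have h : ∀ i ∈ range m,
      ((if i + 1 < a + 1 then i + 1 else c) - (if i < a + 1 then i else 0)) = 1 := by
    intro i hi
    rw [mem_range] at hi
    rw [if_pos (by omega), if_pos (by omega)]
    omega
  rw [sum_congr rfl h]
  simp

private theorem v2_sum (a c m : ℕ) (hac : a + 1 ≤ c) :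
    ∑ i ∈ range (a + 1 + m), ((if i + 1 < a + 1 then i + 1 else c) - (if i < a + 1 then i else 0)) =
      c * (m + 1) := by
  induction m with
  | zero =>
    rw [Nat.add_zero, sum_range_succ, v2_one a c a le_rfl, if_neg (by omega), if_pos (by omega)]
    omega
  | succ m ih =>
    rw [← Nat.add_assoc, sum_range_succ, ih, if_neg (by omega), if_neg (by omega)]
    ring_nf
    omega

theorem con2 (n r a c : ℕ) (ha : 1 ≤ a) (hac : a ≤ c) (hcn : c ≤ n) (har : a ≤ r) :
    ∃ B : Fin r → Finset (Fin n), Bd B a c ∧ c * (r + 1 - a) ≤ ∑ i, #(B i) := by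
  classical
  obtain ⟨a', rfl⟩ : ∃ a', a = a' + 1 := ⟨a - 1, by omega⟩
  obtain ⟨m, rfl⟩ : ∃ m, r = a' + 1 + m := ⟨r - (a' + 1), by omega⟩
  obtain ⟨B, hB⟩ : ∃ B : Fin (a' + 1 + m) → Finset (Fin n), ∀ i, B i =
      univ.filter fun x : Fin n => (if i.1 < a' + 1 then i.1 else 0) ≤ x.1 ∧
        x.1 < (if i.1 + 1 < a' + 1 then i.1 + 1 else c) := ⟨_, fun _ => rfl⟩
  have hc : ∀ i, #(B i) = (if i.1 + 1 < a' + 1 then i.1 + 1 else c) -
      (if i.1 < a' + 1 then i.1 else 0) := by
    intro i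
    rw [hB i]
    refine v2_card n _ _ ?_
    split_ifs <;> omega
  have hdis : ∀ i j : Fin (a' + 1 + m), i.1 < a' + 1 → j.1 < a' + 1 → i ≠ j →
      Disjoint (B i) (B j) := by
    intro i j hi hj hij
    rw [Finset.disjoint_left]
    intro x hxi hxj
    rw [hB, mem_filter, if_pos hi] at hxi
    rw [hB, mem_filter, if_pos hj] at hxj
    have hne : i.1 ≠ j.1 := fun h => hij (Fin.ext h)
    obtain ⟨-, h1, h2⟩ := hxi
    obtain ⟨-, h3, h4⟩ := hxj
    split_ifs at h2 h4 <;> omega
  have hX : ∀ i, i ∉ (∅ : Finset (Fin (a' + 1 + m))) →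
      B i ⊆ univ.filter fun x : Fin n => 0 ≤ x.1 ∧ x.1 < c := by
    intro i _ x hx
    rw [hB, mem_filter] at hx
    obtain ⟨-, -, h2⟩ := hx
    rw [mem_filter]
    refine ⟨mem_univ _, Nat.zero_le _, ?_⟩
    split_ifs at h2 <;> omega
  refine ⟨B, ⟨fun i => ?_, lo_of_disjoint har hdis, fun b hb => ?_⟩, ?_⟩
  · rw [← card_pos, hc i]
    split_ifs <;> omega
  · have h := hi_of_cover hX b hb
    rw [v2_card n 0 c hcn, card_empty] at h
    omega
  · have h1 : ∑ i, #(B i) = c * (m + 1) := by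
      rw [sum_congr rfl (fun i _ => hc i)]
      rw [Fin.sum_univ_eq_sum_range (fun i => (if i + 1 < a' + 1 then i + 1 else c) -
        (if i < a' + 1 then i else 0)) (a' + 1 + m)]
      exact v2_sum a' c m hac
    rw [h1]
    refine Nat.mul_le_mul_left _ ?_
    omega

end CrossN
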