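import Pool.Agent.Lib.MP_7592f8N.V0

/-! # leaf V3: `a` points, `c - a` full sets -/

set_option autoImplicit false

namespace CrossN
open Finset Cross7592

theorem con3 (n r a c : ℕ) (ha : 1 ≤ a) (hac : a ≤ c) (hcn : c ≤ n) (hcr : c ≤ r) :
    ∃ B : Fin r → Finset (Fin n), Bd B a c ∧
      a * (r + 1 - a) + (n - a) * (c - a) ≤ ∑ i, #(B i) := by
  classical
  have han : a ≤ n := hac.trans hcn
  set X : Finset (Fin n) := (univ : Finset (Fin a)).map (Fin.castLEEmb han) with hX
  have mX : ∀ x : Fin n, x.1 < a → x ∈ X := by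
    intro x hx
    rw [hX, mem_map]
    exact ⟨⟨x.1, hx⟩, mem_univ _, rfl⟩
  have cX : #X = a := by
    rw [hX, card_map, card_univ, Fintype.card_fin]
  set B : Fin r → Finset (Fin n) := fun i =>
    if h : i.1 < a then {⟨i.1, lt_of_lt_of_le h han⟩} else if i.1 < c then univ else X with hB
  have B1 : ∀ i : Fin r, ∀ h : i.1 < a, B i = {⟨i.1, lt_of_lt_of_le h han⟩} := by
    intro i h
    simp only [hB, dif_pos h]
  have B2 : ∀ i : Fin r, ¬ i.1 < a → i.1 < c → B i = univ := by
    intro i h h'
    simp only [hB, dif_neg h, if_pos h']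
  have B3 : ∀ i : Fin r, ¬ i.1 < a → ¬ i.1 < c → B i = X := by
    intro i h h'
    simp only [hB, dif_neg h, if_neg h']
  set R : Finset (Fin r) := univ.filter fun i => a ≤ i.1 ∧ i.1 < c with hR
  have cR : #R ≤ c - a := by
    rw [← Nat.card_Ico a c]
    refine card_le_card_of_injOn (fun i : Fin r => i.1) ?_ ?_
    · intro i hi
      have h1 : i ∈ R := hi
      rw [hR, mem_filter] at h1
      show i.1 ∈ ((Ico a c : Finset ℕ) : Set ℕ)
      rw [mem_coe, mem_Ico]
      exact h1.2
    · intro i _ j _ hij
      exact Fin.ext hij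
  refine ⟨B, ⟨?_, ?_, ?_⟩, ?_⟩
  · intro i
    by_cases h : i.1 < a
    · rw [B1 i h]
      exact singleton_nonempty _
    · by_cases h' : i.1 < c
      · rw [B2 i h h']
        exact ⟨⟨0, by omega⟩, mem_univ _⟩
      · rw [B3 i h h']
        exact card_pos.mp (by omega)
  · refine lo_of_disjoint (hac.trans hcr) ?_
    intro i j hi hj hij
    rw [B1 i hi, B1 j hj, disjoint_singleton]
    intro h
    rw [Fin.mk.injEq] at h
    exact hij (Fin.ext h)
  · intro b hb
    have h1 := hi_of_cover (B := B) (X := X) (R := R) (fun i hi => by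
      rw [hR, mem_filter] at hi
      by_cases h : i.1 < a
      · rw [B1 i h, singleton_subset_iff]
        exact mX _ h
      · have h' : ¬ i.1 < c := fun h' => hi ⟨mem_univ _, by omega, h'⟩
        rw [B3 i h h']) b hb
    omega
  · have h1 : ∑ i, #(B i) = ∑ i : Fin r, (fun m : ℕ => if m < a then 1 else if m < c then n else a) i.1 := by
      refine sum_congr rfl fun i _ => ?_
      by_cases h : i.1 < a
      · rw [B1 i h]
        simp [h]
      · by_cases h' : i.1 < c
        · rw [B2 i h h']
          simp [h, h']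
        · rw [B3 i h h', cX]
          simp [h, h']
    rw [h1, Fin.sum_univ_eq_sum_range (fun m : ℕ => if m < a then 1 else if m < c then n else a) r,
      range_eq_Ico, ← sum_Ico_consecutive _ (Nat.zero_le c) hcr,
      ← sum_Ico_consecutive _ (Nat.zero_le a) hac]
    have s1 : ∑ m ∈ Ico 0 a, (if m < a then 1 else if m < c then n else a) = a * 1 := by
      rw [sum_congr rfl (fun m hm => if_pos (mem_Ico.mp hm).2), sum_const, Nat.card_Ico]
      simp
    have s2 : ∑ m ∈ Ico a c, (if m < a then 1 else if m < c then n else a) = (c - a) * n := by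
      rw [sum_congr rfl (fun m hm => (if_neg (not_lt.mpr (mem_Ico.mp hm).1)).trans
        (if_pos (mem_Ico.mp hm).2)), sum_const, Nat.card_Ico]
      simp
    have s3 : ∑ m ∈ Ico c r, (if m < a then 1 else if m < c then n else a) = (r - c) * a := by
      rw [sum_congr rfl (fun m hm => (if_neg (not_lt.mpr (hac.trans (mem_Ico.mp hm).1))).trans
        (if_neg (not_lt.mpr (mem_Ico.mp hm).1))), sum_const, Nat.card_Ico]
      simp
    rw [s1, s2, s3]
    obtain ⟨p, rfl⟩ := Nat.exists_eq_add_of_le hac
    obtain ⟨q, rfl⟩ := Nat.exists_eq_add_of_le hcr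
    obtain ⟨s, rfl⟩ := Nat.exists_eq_add_of_le hcn
    have e1 : a + p + q + 1 - a = p + q + 1 := by omega
    have e2 : a + p + s - a = p + s := by omega
    have e3 : a + p - a = p := by omega
    have e4 : a + p + q - (a + p) = q := by omega
    rw [e1, e2, e3, e4]
    apply le_of_eq
    ring

end CrossN
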