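import Pool.Agent.Lib.MP_7592f8N.V0

/-! # leaf V4: `a - 1` points, one complement, `c - a` full sets -/

set_option autoImplicit false

namespace CrossN
open Finset Cross7592

private theorem v4_aux (A p q s : ℕ) (hA : 1 ≤ A) :
    ∃ B : Fin (A + 1 + p + q) → Finset (Fin (A + 1 + p + s)), Bd B (A + 1) (A + 1 + p) ∧
      A * (A + 1 + p + q - A) + (A + 1 + p + s - A) * (p + 1) ≤ ∑ i, #(B i) := by
  classical
  have hAn : A < A + 1 + p + s := by omega
  let B : Fin (A + 1 + p + q) → Finset (Fin (A + 1 + p + s)) := fun i =>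
    if h : i.1 < A then {⟨i.1, by omega⟩} else if i.1 = A then Ici ⟨A, hAn⟩ else
      if i.1 < A + 1 + p then univ else Iio ⟨A, hAn⟩
  have hB1 : ∀ i : Fin (A + 1 + p + q), ∀ h : i.1 < A, B i = {⟨i.1, by omega⟩} := by
    intro i h
    simp only [B, dif_pos h]
  have hB2 : ∀ i : Fin (A + 1 + p + q), i.1 = A → B i = Ici ⟨A, hAn⟩ := by
    intro i h
    simp only [B, dif_neg (show ¬ i.1 < A by omega), if_pos h]
  have hB3 : ∀ i : Fin (A + 1 + p + q), A < i.1 → i.1 < A + 1 + p → B i = univ := by
    intro i h h2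
    simp only [B, dif_neg (show ¬ i.1 < A by omega), if_neg (show ¬ i.1 = A by omega), if_pos h2]
  have hB4 : ∀ i : Fin (A + 1 + p + q), A + 1 + p ≤ i.1 → B i = Iio ⟨A, hAn⟩ := by
    intro i h
    simp only [B, dif_neg (show ¬ i.1 < A by omega), if_neg (show ¬ i.1 = A by omega),
      if_neg (show ¬ i.1 < A + 1 + p by omega)]
  refine ⟨B, ⟨?_, ?_, ?_⟩, ?_⟩
  · intro i
    rcases lt_trichotomy i.1 A with h | h | h
    · rw [hB1 i h]; exact singleton_nonempty _
    · rw [hB2 i h]; exact ⟨⟨A, hAn⟩, mem_Ici.2 le_rfl⟩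
    · rcases lt_or_ge i.1 (A + 1 + p) with h2 | h2
      · rw [hB3 i h h2]; exact ⟨⟨A, hAn⟩, mem_univ _⟩
      · rw [hB4 i h2]
        exact ⟨⟨0, by omega⟩, mem_Iio.2 (by rw [Fin.lt_def]; show 0 < A; omega)⟩
  · refine lo_of_disjoint (by omega) fun i j hi hj hij => ?_
    have hij' : i.1 ≠ j.1 := fun h => hij (Fin.ext h)
    rcases lt_or_eq_of_le (Nat.lt_succ_iff.1 hi) with h | h
    · rcases lt_or_eq_of_le (Nat.lt_succ_iff.1 hj) with h2 | h2
      · rw [hB1 i h, hB1 j h2, disjoint_singleton]
        intro e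
        rw [Fin.mk.injEq] at e
        exact hij' e
      · rw [hB1 i h, hB2 j h2, disjoint_singleton_left, mem_Ici, Fin.le_def]
        show ¬ A ≤ i.1
        omega
    · rcases lt_or_eq_of_le (Nat.lt_succ_iff.1 hj) with h2 | h2
      · rw [hB2 i h, hB1 j h2, disjoint_singleton_right, mem_Ici, Fin.le_def]
        show ¬ A ≤ j.1
        omega
      · omega
  · intro b hb
    have h1 := hi_of_cover (B := B) (X := Iio ⟨A, hAn⟩)
      (R := univ.filter fun i : Fin (A + 1 + p + q) => A ≤ i.1 ∧ i.1 < A + 1 + p) (by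
        intro i hi
        rw [mem_filter, not_and] at hi
        have h2 := hi (mem_univ i)
        rcases lt_or_ge i.1 A with h | h
        · rw [hB1 i h, singleton_subset_iff, mem_Iio, Fin.lt_def]
          exact h
        · rw [hB4 i (by omega)]) b hb
    have h3 : #(univ.filter fun i : Fin (A + 1 + p + q) => A ≤ i.1 ∧ i.1 < A + 1 + p) ≤ p + 1 := by
      have h4 : #(univ.filter fun i : Fin (A + 1 + p + q) => A ≤ i.1 ∧ i.1 < A + 1 + p) ≤
          #(Ico A (A + 1 + p)) := by
        refine card_le_card_of_injOn (fun i => i.1) ?_ ?_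
        · intro i hi
          have h5 := (mem_filter.1 hi).2
          exact mem_coe.2 (mem_Ico.2 h5)
        · intro i _ j _ h
          exact Fin.ext h
      rw [Nat.card_Ico] at h4
      omega
    rw [Fin.card_Iio] at h1
    have h6 : ((⟨A, hAn⟩ : Fin (A + 1 + p + s)) : ℕ) = A := rfl
    omega
  · have hsum : ∑ i, #(B i) = ∑ i ∈ range (A + 1 + p + q),
        (if i < A then 1 else if i = A then (A + 1 + p + s - A) else if i < A + 1 + p then
          (A + 1 + p + s) else A) := by
      rw [Finset.sum_range]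
      refine sum_congr rfl fun i _ => ?_
      rcases lt_trichotomy i.1 A with h | h | h
      · rw [hB1 i h, card_singleton, if_pos h]
      · rw [hB2 i h, Fin.card_Ici, if_neg (by omega), if_pos h]
      · rcases lt_or_ge i.1 (A + 1 + p) with h2 | h2
        · rw [hB3 i h h2, card_univ, Fintype.card_fin, if_neg (by omega), if_neg (by omega), if_pos h2]
        · rw [hB4 i h2, Fin.card_Iio, if_neg (by omega), if_neg (by omega), if_neg (by omega)]
    rw [hsum, Finset.sum_range_add, Finset.sum_range_add, Finset.sum_range_add]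
    have s1 : ∑ x ∈ range A, (if x < A then 1 else if x = A then (A + 1 + p + s - A) else
        if x < A + 1 + p then (A + 1 + p + s) else A) = A := by
      rw [sum_congr rfl fun x hx => if_pos (mem_range.1 hx)]
      simp
    have s2 : ∑ x ∈ range 1, (if A + x < A then 1 else if A + x = A then (A + 1 + p + s - A) else
        if A + x < A + 1 + p then (A + 1 + p + s) else A) = A + 1 + p + s - A := by
      simp
    have s3 : ∑ x ∈ range p, (if A + 1 + x < A then 1 else if A + 1 + x = A then
        (A + 1 + p + s - A) else if A + 1 + x < A + 1 + p then (A + 1 + p + s) else A) =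
        p * (A + 1 + p + s) := by
      rw [sum_congr rfl (g := fun _ => A + 1 + p + s) fun x hx => by
        have := mem_range.1 hx
        rw [if_neg (by omega), if_neg (by omega), if_pos (by omega)]]
      simp
    have s4 : ∑ x ∈ range q, (if A + 1 + p + x < A then 1 else if A + 1 + p + x = A then
        (A + 1 + p + s - A) else if A + 1 + p + x < A + 1 + p then (A + 1 + p + s) else A) =
        q * A := by
      rw [sum_congr rfl (g := fun _ => A) fun x hx => by
        rw [if_neg (by omega), if_neg (by omega), if_neg (by omega)]]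
      simp
    rw [s1, s2, s3, s4]
    have e1 : A + 1 + p + q - A = 1 + p + q := by omega
    have e2 : A + 1 + p + s - A = 1 + p + s := by omega
    rw [e1, e2]
    apply le_of_eq
    ring

theorem con4 (n r a c : ℕ) (ha : 2 ≤ a) (hac : a ≤ c) (hcn : c ≤ n) (hcr : c ≤ r) :
    ∃ B : Fin r → Finset (Fin n), Bd B a c ∧
      (a - 1) * (r + 1 - a) + (n + 1 - a) * (c + 1 - a) ≤ ∑ i, #(B i) := by
  obtain ⟨A, rfl⟩ : ∃ A, a = A + 1 := ⟨a - 1, by omega⟩
  obtain ⟨p, rfl⟩ := Nat.exists_eq_add_of_le hac
  obtain ⟨q, rfl⟩ := Nat.exists_eq_add_of_le hcr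
  obtain ⟨s, rfl⟩ := Nat.exists_eq_add_of_le hcn
  obtain ⟨B, h1, h2⟩ := v4_aux A p q s (by omega)
  refine ⟨B, h1, le_trans (le_of_eq ?_) h2⟩
  have e1 : A + 1 - 1 = A := by omega
  have e2 : A + 1 + p + q + 1 - (A + 1) = A + 1 + p + q - A := by omega
  have e3 : A + 1 + p + s + 1 - (A + 1) = A + 1 + p + s - A := by omega
  have e4 : A + 1 + p + 1 - (A + 1) = p + 1 := by omega
  rw [e1, e2, e3, e4]

end CrossN
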