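import Pool.Agent.Lib.MP_7592f8N.T1
import Pool.Agent.Lib.MP_7592f8N.T2
import Pool.Agent.Lib.MP_7592f8N.U4
import Pool.Agent.Lib.MP_7592f8N.V2
import Pool.Agent.Lib.MP_7592f8N.V3
import Pool.Agent.Lib.MP_7592f8N.V4

/-!
# MP_7592f8_co: `n = k + 1` (helper97): the main theorem
-/

namespace Cross7592
open Finset CrossN

/-- The least and the largest number of different points of a choice. -/
theorem exists_Bd {n r : ℕ} {B : Fin r → Finset (Fin n)} (ne : ∀ i, (B i).Nonempty) :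
    ∃ b b' : Fin r → Fin n, Ch B b ∧ Ch B b' ∧ Bd B (Dn b) (Dn b') := by
  classical
  obtain ⟨b₀, h0⟩ := exists_ch ne
  have hne : (univ.filter fun b : Fin r → Fin n => Ch B b).Nonempty :=
    ⟨b₀, by rw [mem_filter]; exact ⟨mem_univ _, h0⟩⟩
  obtain ⟨b, hb, hb1⟩ := exists_min_image _ Dn hne
  obtain ⟨b', hb', hb1'⟩ := exists_max_image _ Dn hne
  rw [mem_filter] at hb hb'
  exact ⟨b, b', hb.2, hb'.2, ne, fun z hz => hb1 z (by rw [mem_filter]; exact ⟨mem_univ _, hz⟩),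
    fun z hz => hb1' z (by rw [mem_filter]; exact ⟨mem_univ _, hz⟩)⟩

theorem one_le_Dn {n r : ℕ} (hr : 1 ≤ r) (b : Fin r → Fin n) : 1 ≤ Dn b :=
  card_pos.2 ⟨b ⟨0, hr⟩, mem_image_of_mem _ (mem_univ _)⟩

/-- The structure of an admissible tuple. -/
theorem structN {k r : ℕ} (hr : 1 ≤ r) {L : Finset ℕ}
    {𝒜 : Fin r → Finset (Finset (Fin (k + 1)))} (h : Adm (k + 1) k r L 𝒜) :
    ∃ (B : Fin r → Finset (Fin (k + 1))) (a c : ℕ), 𝒜 = fam B ∧ Bd B a c ∧ 1 ≤ a ∧ a ≤ c ∧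
      a ≤ r ∧ c ≤ k + 1 ∧ ∀ d, a ≤ d → d ≤ c → k + 1 - d ∈ L := by
  obtain ⟨B, rfl⟩ := exists_fam h
  obtain ⟨ne, hL⟩ := (adm_fam k r L B).1 h
  obtain ⟨b, b', hb, hb', hB⟩ := exists_Bd ne
  refine ⟨B, Dn b, Dn b', rfl, hB, one_le_Dn hr b, hB.lo _ hb', Dn_le_left b, Dn_le_right b',
    fun d h1 h2 => ?_⟩
  obtain ⟨b'', hb'', rfl⟩ := between hb hb' h1 h2
  exact hL _ hb''

theorem con (n r a c : ℕ) (ha : 1 ≤ a) (hac : a ≤ c) (hcn : c ≤ n) (har : a ≤ r) :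
    ∃ B : Fin r → Finset (Fin n), Bd B a c ∧ valN n r a c ≤ ∑ i, #(B i) := by
  unfold valN
  split_ifs with h1 h2
  · rcases le_total n r with h3 | h3
    · have hc : c = n := by omega
      subst hc
      obtain ⟨B, hB, hB'⟩ := con2 c r a c ha hac le_rfl har
      exact ⟨B, hB, by rwa [mul_comm]⟩
    · obtain ⟨B, hB, hB'⟩ := con2 n r a n ha (hac.trans hcn) le_rfl har
      exact ⟨B, ⟨hB.ne, hB.lo, fun b _ => (Dn_le_left b).trans (by omega)⟩, by rwa [mul_comm]⟩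
  · have hcr : c ≤ r := by omega
    obtain ⟨B, hB, hB'⟩ := con2 n r a c ha hac hcn har
    obtain ⟨B', hC, hC'⟩ := con3 n r a c ha hac hcn hcr
    rcases le_total (a * (r + 1 - a) + (n - a) * (c - a)) (c * (r + 1 - a)) with h3 | h3
    · exact ⟨B, hB, max_le (max_le (h3.trans hB') hB') (Nat.zero_le _)⟩
    · exact ⟨B', hC, max_le (max_le hC' (h3.trans hC')) (Nat.zero_le _)⟩
  · have hcr : c ≤ r := by omega
    obtain ⟨B, hB, hB'⟩ := con2 n r a c ha hac hcn har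
    obtain ⟨B', hC, hC'⟩ := con3 n r a c ha hac hcn hcr
    obtain ⟨B'', hE, hE'⟩ := con4 n r a c (by omega) hac hcn hcr
    rcases le_total (max (a * (r + 1 - a) + (n - a) * (c - a)) (c * (r + 1 - a)))
      ((a - 1) * (r + 1 - a) + (n + 1 - a) * (c + 1 - a)) with h4 | h4
    · exact ⟨B'', hE, max_le (h4.trans hE') hE'⟩
    · rcases le_total (a * (r + 1 - a) + (n - a) * (c - a)) (c * (r + 1 - a)) with h3 | h3
      · rw [max_eq_left h4, max_eq_right h3]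
        exact ⟨B, hB, hB'⟩
      · rw [max_eq_left h4, max_eq_left h3]
        exact ⟨B', hC, hC'⟩

theorem mainN (k r : ℕ) (hr : 1 ≤ r) (L : Finset ℕ) (hk : ∀ l ∈ L, l ≤ k) :
    (∀ 𝒜 : Fin r → Finset (Finset (Fin (k + 1))), Adm (k + 1) k r L 𝒜 →
      ∃ a b : ℕ, a ≤ b ∧ Icc a b ⊆ L ∧ Adm (k + 1) k r (Icc a b) 𝒜) ∧
    ((totals (k + 1) k r L).Nonempty →
      IsGreatest (totals (k + 1) k r L) ((runsN k r L).sup fun p => valN (k + 1) r p.1 p.2)) := by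
  refine ⟨fun 𝒜 h => ?_, fun hne => ?_⟩
  · obtain ⟨B, a, c, rfl, hB, h1, h2, h3, h4, h5⟩ := structN hr h
    refine ⟨k + 1 - c, k + 1 - a, by omega, fun l hl => ?_, ?_⟩
    · rw [mem_Icc] at hl
      have h6 := h5 (k + 1 - l) (by omega) (by omega)
      have e : k + 1 - (k + 1 - l) = l := by omega
      rwa [e] at h6
    · refine (adm_fam k r _ B).2 ⟨hB.ne, fun b hb => ?_⟩
      have h6 := hB.lo b hb
      have h7 := hB.hi b hb
      rw [mem_Icc]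
      omega
  · have hup : ∀ s ∈ totals (k + 1) k r L,
        s ≤ (runsN k r L).sup fun p => valN (k + 1) r p.1 p.2 := by
      rintro s ⟨𝒜, h, rfl⟩
      obtain ⟨B, a, c, rfl, hB, h1, h2, h3, h4, h5⟩ := structN hr h
      rw [total_fam]
      refine (total_le hB h1 hr h2).trans ?_
      have hm : (a, c) ∈ runsN k r L := by
        simp only [runsN, mem_filter, mem_product, mem_Icc]
        exact ⟨⟨⟨h1, by omega⟩, by omega, h4⟩, h2, fun d hd => h5 d hd.1 hd.2⟩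
      exact le_sup (f := fun p : ℕ × ℕ => valN (k + 1) r p.1 p.2) hm
    refine ⟨?_, fun s hs => hup s hs⟩
    have hne' : (runsN k r L).Nonempty := by
      obtain ⟨s, 𝒜, h, rfl⟩ := hne
      obtain ⟨B, a, c, rfl, hB, h1, h2, h3, h4, h5⟩ := structN hr h
      refine ⟨(a, c), ?_⟩
      simp only [runsN, mem_filter, mem_product, mem_Icc]
      exact ⟨⟨⟨h1, by omega⟩, by omega, h4⟩, h2, fun d hd => h5 d hd.1 hd.2⟩
    obtain ⟨p, hp, hp'⟩ := exists_mem_eq_sup _ hne' fun p : ℕ × ℕ => valN (k + 1) r p.1 p.2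
    simp only [runsN, mem_filter, mem_product, mem_Icc] at hp
    obtain ⟨⟨⟨p1, p2⟩, p3, p4⟩, p5, p6⟩ := hp
    obtain ⟨B, hB, hB'⟩ := con (k + 1) r p.1 p.2 p1 p5 p4 (by omega)
    have hadm : Adm (k + 1) k r L (fam B) := (adm_fam k r L B).2 ⟨hB.ne, fun b hb =>
      p6 _ ⟨hB.lo b hb, hB.hi b hb⟩⟩
    have h1 : total (fam B) ≤ _ := hup _ ⟨fam B, hadm, rfl⟩
    rw [hp'] at h1 ⊢
    rw [← total_fam] at hB'
    exact ⟨fam B, hadm, le_antisymm hB' h1⟩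

end Cross7592
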