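import Pool.Agent.Lib.MP_7592f8N.Base

/-! # leaf T1: translation to the missed points -/

set_option autoImplicit false

namespace CrossN
open Finset Cross7592

private theorem erase_inj {n : ℕ} : Function.Injective fun x : Fin n => (univ.erase x : Finset (Fin n)) := by
  intro x y hxy
  by_contra hne
  have h1 : x ∈ (univ.erase y : Finset (Fin n)) := by simp [hne]
  have h2 : x ∈ (univ.erase x : Finset (Fin n)) := by
    have hxy' : (univ.erase x : Finset (Fin n)) = univ.erase y := hxy
    rw [hxy']; exact h1
  simp at h2

private theorem card_common {n r : ℕ} (b : Fin r → Fin n) :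
    #(common fun i => (univ.erase (b i) : Finset (Fin n))) = n - Dn b := by
  have h : (common fun i => (univ.erase (b i) : Finset (Fin n))) = (univ.image b)ᶜ := by
    ext x
    simp only [common, mem_filter, mem_univ, true_and, mem_erase, ne_eq, and_true, mem_compl,
      mem_image, not_exists]
    constructor
    · intro h i hi
      exact h i hi.symm
    · intro h i hi
      exact h i hi.symm
  rw [h, card_compl, Fintype.card_fin, Dn]

theorem exists_fam {k r : ℕ} {L : Finset ℕ} {𝒜 : Fin r → Finset (Finset (Fin (k + 1)))}
    (h : Adm (k + 1) k r L 𝒜) : ∃ B : Fin r → Finset (Fin (k + 1)), 𝒜 = fam B := by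
  classical
  refine ⟨fun i => univ.filter fun x => univ.erase x ∈ 𝒜 i, ?_⟩
  funext i
  ext F
  simp only [fam, mem_image, mem_filter, mem_univ, true_and]
  constructor
  · intro hF
    have hc : #Fᶜ = 1 := by
      rw [card_compl, h.sub i F hF, Fintype.card_fin]
      omega
    obtain ⟨x, hx⟩ := card_eq_one.1 hc
    have hFx : univ.erase x = F := by
      have h2 : F = Fᶜᶜ := (compl_compl F).symm
      rw [h2, hx]
      ext y
      simp
    exact ⟨x, by rw [hFx]; exact hF, hFx⟩
  · rintro ⟨x, hx, rfl⟩
    exact hx

theorem total_fam {n r : ℕ} (B : Fin r → Finset (Fin n)) : total (fam B) = ∑ i, #(B i) := by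
  unfold total
  refine sum_congr rfl fun i _ => ?_
  unfold fam
  exact card_image_of_injective _ erase_inj

theorem adm_fam (k r : ℕ) (L : Finset ℕ) (B : Fin r → Finset (Fin (k + 1))) :
    Adm (k + 1) k r L (fam B) ↔
      (∀ i, (B i).Nonempty) ∧ ∀ b, Ch B b → k + 1 - Dn b ∈ L := by
  classical
  constructor
  · intro h
    refine ⟨fun i => ?_, fun b hb => ?_⟩
    · obtain ⟨F, hF⟩ := h.ne i
      simp only [fam, mem_image] at hF
      obtain ⟨x, hx, _⟩ := hF
      exact ⟨x, hx⟩
    · have h1 := h.cross (fun i => univ.erase (b i)) (fun i => by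
        simp only [fam, mem_image]
        exact ⟨b i, hb i, rfl⟩)
      rwa [card_common] at h1
  · rintro ⟨hne, hL⟩
    refine ⟨fun i F hF => ?_, fun i => ?_, fun A hA => ?_⟩
    · simp only [fam, mem_image] at hF
      obtain ⟨x, _, rfl⟩ := hF
      rw [card_erase_of_mem (mem_univ x), card_univ, Fintype.card_fin]
      omega
    · obtain ⟨x, hx⟩ := hne i
      exact ⟨univ.erase x, by simp only [fam, mem_image]; exact ⟨x, hx, rfl⟩⟩
    · have h2 : ∀ i, ∃ x ∈ B i, univ.erase x = A i := by
        intro i
        have := hA i
        simpa only [fam, mem_image] using this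
      choose b hb hbA using h2
      have h3 : A = fun i => univ.erase (b i) := funext fun i => (hbA i).symm
      rw [h3, card_common]
      exact hL b hb

end CrossN
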