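import Pool.Agent.Lib.MP_7592f8N.Base

/-! # leaf U1: degrees of the points -/

set_option autoImplicit false

namespace CrossN
open Finset Cross7592

private theorem exists_zch {n r : ℕ} {B : Fin r → Finset (Fin n)} (ne : ∀ i, (B i).Nonempty)
    (z : Fin n) : ∃ b : Fin r → Fin n, Ch B b ∧ ∀ i, z ∈ B i → b i = z := by
  classical
  refine ⟨fun i => if z ∈ B i then z else (ne i).choose, fun i => ?_, fun i hi => ?_⟩
  · show (if z ∈ B i then z else (ne i).choose) ∈ B i
    split_ifs with h
    · exact h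
    · exact (ne i).choose_spec
  · show (if z ∈ B i then z else (ne i).choose) = z
    rw [if_pos hi]

theorem deg_le {n r a : ℕ} {B : Fin r → Finset (Fin n)} (ne : ∀ i, (B i).Nonempty)
    (lo : ∀ b, Ch B b → a ≤ Dn b) (z : Fin n) :
    #(univ.filter fun i : Fin r => z ∈ B i) + a ≤ r + 1 := by
  classical
  obtain ⟨b, hb, hz⟩ := exists_zch ne z
  have h1 : univ.image b ⊆ insert z ((univ.filter fun i : Fin r => ¬ z ∈ B i).image b) := by
    intro y hy
    obtain ⟨i, -, rfl⟩ := mem_image.1 hy
    by_cases hi : z ∈ B i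
    · rw [hz i hi]
      exact mem_insert_self _ _
    · exact mem_insert_of_mem (mem_image_of_mem _ (mem_filter.2 ⟨mem_univ _, hi⟩))
  have h2 : Dn b ≤ #(univ.filter fun i : Fin r => ¬ z ∈ B i) + 1 :=
    (card_le_card h1).trans ((card_insert_le _ _).trans (Nat.succ_le_succ card_image_le))
  have h3 := card_filter_add_card_filter_not (s := (univ : Finset (Fin r)))
    (fun i : Fin r => z ∈ B i)
  rw [card_univ, Fintype.card_fin] at h3
  have h4 := lo b hb
  omega

theorem deg_le_cover {n r a : ℕ} {B : Fin r → Finset (Fin n)} (ne : ∀ i, (B i).Nonempty)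
    (lo : ∀ b, Ch B b → a ≤ Dn b) {X : Finset (Fin n)} {R : Finset (Fin r)}
    (hXR : ∀ i, i ∉ R → B i ⊆ X) {z : Fin n} (hz : z ∉ X) :
    #(univ.filter fun i : Fin r => z ∈ B i) ≤ #R ∧
      #(univ.filter fun i : Fin r => z ∈ B i) + a ≤ #X + #R + 1 := by
  classical
  have h0 : (univ.filter fun i : Fin r => z ∈ B i) ⊆ R := by
    intro i hi
    by_contra hR
    exact hz (hXR i hR (mem_filter.1 hi).2)
  have h5 := card_le_card h0
  refine ⟨h5, ?_⟩
  obtain ⟨b, hb, hbz⟩ := exists_zch ne z
  have h1 : univ.image b ⊆ insert z (X ∪ (R \ univ.filter fun i : Fin r => z ∈ B i).image b) := by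
    intro y hy
    obtain ⟨i, -, rfl⟩ := mem_image.1 hy
    by_cases hi : z ∈ B i
    · rw [hbz i hi]
      exact mem_insert_self _ _
    · refine mem_insert_of_mem ?_
      by_cases hR : i ∈ R
      · refine mem_union_right _ (mem_image_of_mem _ ?_)
        rw [mem_sdiff, mem_filter]
        exact ⟨hR, fun h => hi h.2⟩
      · exact mem_union_left _ (hXR i hR (hb i))
  have h2 : Dn b ≤ #X + #(R \ univ.filter fun i : Fin r => z ∈ B i) + 1 :=
    (card_le_card h1).trans ((card_insert_le _ _).trans (Nat.succ_le_succ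
      ((card_union_le _ _).trans (Nat.add_le_add_left card_image_le _))))
  rw [card_sdiff_of_subset h0] at h2
  have h4 := lo b hb
  omega

end CrossN
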