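import Pool.Agent.Lib.MP_7592f8N.Base

/-! # leaf V0: how to bound the number of different points of all choices -/

set_option autoImplicit false

namespace CrossN
open Finset Cross7592

theorem lo_of_disjoint {n r a : ℕ} {B : Fin r → Finset (Fin n)} (har : a ≤ r)
    (hd : ∀ i j : Fin r, i.1 < a → j.1 < a → i ≠ j → Disjoint (B i) (B j)) :
    ∀ b, Ch B b → a ≤ Dn b := by
  intro b hb
  have hinj : Function.Injective fun i : Fin a => b (Fin.castLE har i) := by
    intro i j hij
    by_contra hne
    have h1 : Fin.castLE har i ≠ Fin.castLE har j := fun h => hne (Fin.castLE_injective har h)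
    have h2 := hd (Fin.castLE har i) (Fin.castLE har j) i.2 j.2 h1
    have h3 : b (Fin.castLE har i) ∈ B (Fin.castLE har i) := hb _
    have h4 : b (Fin.castLE har i) ∈ B (Fin.castLE har j) := by
      have h5 : b (Fin.castLE har i) = b (Fin.castLE har j) := hij
      rw [h5]; exact hb _
    exact (Finset.disjoint_left.1 h2 h3) h4
  have h1 : #(univ.image fun i : Fin a => b (Fin.castLE har i)) = a := by
    rw [card_image_of_injective _ hinj]
    simp
  have h2 : (univ.image fun i : Fin a => b (Fin.castLE har i)) ⊆ univ.image b := by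
    intro x hx
    obtain ⟨i, -, hi⟩ := mem_image.1 hx
    exact mem_image.2 ⟨Fin.castLE har i, mem_univ _, hi⟩
  calc a = #(univ.image fun i : Fin a => b (Fin.castLE har i)) := h1.symm
    _ ≤ #(univ.image b) := card_le_card h2
    _ = Dn b := rfl

theorem hi_of_cover {n r : ℕ} {B : Fin r → Finset (Fin n)} {X : Finset (Fin n)}
    {R : Finset (Fin r)} (hXR : ∀ i, i ∉ R → B i ⊆ X) : ∀ b, Ch B b → Dn b ≤ #X + #R := by
  intro b hb
  have h1 : univ.image b ⊆ X ∪ R.image b := by
    intro x hx
    obtain ⟨i, -, hi⟩ := mem_image.1 hx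
    by_cases hR : i ∈ R
    · exact mem_union_right _ (mem_image.2 ⟨i, hR, hi⟩)
    · exact mem_union_left _ (hi ▸ hXR i hR (hb i))
  calc Dn b = #(univ.image b) := rfl
    _ ≤ #(X ∪ R.image b) := card_le_card h1
    _ ≤ #X + #(R.image b) := card_union_le _ _
    _ ≤ #X + #R := Nat.add_le_add_left card_image_le _

end CrossN
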